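import Pool.Agent.U41.OD.Stm2

/-! Project OD (helper41), package FI (helper653): finitely many critical values. -/

set_option autoImplicit false

namespace Pool.Agent.U41.OD

open MvPolynomial

/-- A derivation of a polynomial ring in terms of the partial derivatives. -/
theorem der_eq_sum_FI {K σ M : Type} [Field K] [Fintype σ] [AddCommGroup M]
    [Module (MvPolynomial σ K) M] [Module K M]
    (D : Derivation K (MvPolynomial σ K) M) (p : MvPolynomial σ K) :
    D p = ∑ l, pderiv l p • D (X l) := by
  classical
  induction p using MvPolynomial.induction_on with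
  | C c =>
    have h : D (C c) = 0 := by
      have := D.map_algebraMap c
      rwa [MvPolynomial.algebraMap_eq] at this
    rw [h]
    symm
    apply Finset.sum_eq_zero
    intro l _
    rw [pderiv_C, zero_smul]
  | add p q hp hq =>
    rw [map_add, hp, hq, ← Finset.sum_add_distrib]
    apply Finset.sum_congr rfl
    intro l _
    rw [map_add, add_smul]
  | mul_X p i hp =>
    rw [D.leibniz, hp, Finset.smul_sum]
    have h : ∀ l : σ, (pderiv l (p * X i) : MvPolynomial σ K) • D (X l) =
        (if l = i then p • D (X i) else 0) + (X i : MvPolynomial σ K) • pderiv l p • D (X l) := by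
      intro l
      rw [(pderiv l).leibniz, pderiv_X, add_smul, smul_smul, smul_eq_mul, smul_eq_mul]
      congr 1
      by_cases hl : l = i
      · subst hl
        rw [if_pos rfl, Pi.single_eq_same, mul_one]
      · rw [if_neg hl, Pi.single_eq_of_ne (Ne.symm hl), mul_zero, zero_smul]
    rw [Finset.sum_congr rfl (fun l _ => h l), Finset.sum_add_distrib, Finset.sum_ite_eq']
    simp

/-- Cramer's rule in modules. -/
theorem det_smul_FI {A M σ : Type} [CommRing A] [AddCommGroup M] [Module A M] [Fintype σ]
    [DecidableEq σ] (H : Matrix σ σ A) (m : σ → M) (h : ∀ j, ∑ l, H l j • m l = 0) (k : σ) :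
    H.det • m k = 0 := by
  have e2 : ∑ j, H.adjugate j k • ∑ l, H l j • m l = 0 := by
    apply Finset.sum_eq_zero
    intro j _
    rw [h, smul_zero]
  have e3 : ∑ j, H.adjugate j k • ∑ l, H l j • m l = ∑ l, (H * H.adjugate) l k • m l := by
    simp only [Finset.smul_sum, smul_smul]
    rw [Finset.sum_comm]
    apply Finset.sum_congr rfl
    intro l _
    rw [Matrix.mul_apply, Finset.sum_smul]
    apply Finset.sum_congr rfl
    intro j _
    rw [mul_comm]
  rw [e3, Matrix.mul_adjugate] at e2
  rw [← e2]
  rw [Finset.sum_eq_single k]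
  · simp
  · intro l _ hl
    simp [Matrix.one_apply_ne hl]
  · intro hk
    exact absurd (Finset.mem_univ k) hk

/-- the quotient is unramified -/
theorem unram_FI {K σ A : Type} [Field K] [Fintype σ] [DecidableEq σ] [CommRing A] [Algebra K A]
    [Algebra (MvPolynomial σ K) A] [IsScalarTower K (MvPolynomial σ K) A]
    (hs : Function.Surjective (algebraMap (MvPolynomial σ K) A)) (g : MvPolynomial σ K)
    (h0 : ∀ j, algebraMap (MvPolynomial σ K) A (pderiv j g) = 0)
    (hu : IsUnit (algebraMap (MvPolynomial σ K) A (hess g).det)) :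
    Algebra.FormallyUnramified K A := by
  let D : Derivation K (MvPolynomial σ K) (Ω[A⁄K]) :=
    (KaehlerDifferential.D K A).compAlgebraMap (MvPolynomial σ K)
  have hD : ∀ p, D p = KaehlerDifferential.D K A (algebraMap _ A p) := fun p => rfl
  have hsm : ∀ (p : MvPolynomial σ K) (m : Ω[A⁄K]), p • m = (algebraMap _ A p) • m :=
    fun p m => (algebraMap_smul A p m).symm
  have hrel : ∀ j, ∑ l, ((hess g).map (algebraMap _ A)) l j • D (X l) = 0 := by
    intro j
    have e1 : D (pderiv j g) = 0 := by
      rw [hD, h0, map_zero]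
    rw [der_eq_sum_FI] at e1
    rw [← e1]
    apply Finset.sum_congr rfl
    intro l _
    rw [hsm]
    rfl
  have hdet : ((hess g).map (algebraMap _ A)).det = algebraMap _ A (hess g).det := by
    rw [← RingHom.mapMatrix_apply, ← RingHom.map_det]
  have hX : ∀ k, D (X k) = 0 := by
    intro k
    have e1 := det_smul_FI _ _ hrel k
    rw [hdet] at e1
    exact (hu.smul_eq_zero).1 e1
  have hD0 : ∀ p, D p = 0 := by
    intro p
    rw [der_eq_sum_FI]
    apply Finset.sum_eq_zero
    intro l _
    rw [hX, smul_zero]
  have hsub : Subsingleton (Ω[A⁄K]) := by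
    have h2 := KaehlerDifferential.span_range_derivation K A
    have h4 : (⊤ : Submodule A (Ω[A⁄K])) ≤ ⊥ := by
      rw [← h2, Submodule.span_le]
      rintro _ ⟨x, rfl⟩
      obtain ⟨p, rfl⟩ := hs x
      rw [← hD, hD0]
      exact Submodule.zero_mem _
    exact (Submodule.subsingleton_iff A).1 (subsingleton_of_bot_eq_top (le_antisymm bot_le h4))
  exact ⟨hsub⟩

/-- package FI -/
theorem FI_ok : S_FI := by
  intro K σ _ _ _ g h1
  set I : Ideal (MvPolynomial σ K) := Ideal.span (Set.range fun j => pderiv j g) with hI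
  have hun : Algebra.FormallyUnramified K (MvPolynomial σ K ⧸ I) := by
    apply unram_FI (σ := σ) Ideal.Quotient.mk_surjective g
    · intro j
      rw [Ideal.Quotient.algebraMap_eq, Ideal.Quotient.eq_zero_iff_mem]
      exact Ideal.subset_span ⟨j, rfl⟩
    · obtain ⟨a, z, hz, haz⟩ := Ideal.mem_span_insert.1 h1
      rw [Ideal.Quotient.algebraMap_eq]
      apply IsUnit.of_mul_eq_one (Ideal.Quotient.mk I a)
      rw [← map_mul, mul_comm, ← map_one (Ideal.Quotient.mk I), haz, map_add]
      have hz0 : Ideal.Quotient.mk I z = 0 := Ideal.Quotient.eq_zero_iff_mem.2 hz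
      rw [hz0, add_zero]
  have hfin : Module.Finite K (MvPolynomial σ K ⧸ I) :=
    Algebra.FormallyUnramified.finite_of_free K _
  have hint : IsIntegral K (Ideal.Quotient.mk I g) := Algebra.IsIntegral.isIntegral _
  obtain ⟨m, hm, hm0⟩ := hint
  refine ⟨m, hm.ne_zero, ?_⟩
  rw [← Ideal.Quotient.eq_zero_iff_mem]
  have h5 : Polynomial.aeval (Ideal.Quotient.mk I g) m = 0 := hm0
  have h6 : (Ideal.Quotient.mkₐ K I) (Polynomial.aeval g m) =
      Polynomial.aeval (Ideal.Quotient.mkₐ K I g) m := (Polynomial.aeval_algHom_apply _ _ _).symm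
  exact h6.trans h5

end Pool.Agent.U41.OD
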